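import Pool.Agent.helper37.QX.SpecG

set_option autoImplicit false

/-!
# Row qg:TAU (MP_07c750_an): recursion for the vacuum expectations
-/

open scoped MatrixGroups ContDiff Topology
open MeasureTheory ProbabilityTheory Filter Set Polynomial
open Pool.Agent.QU Pool.Agent.RP

namespace Pool.Agent.QX

theorem TAU_nil {α : Type} [AddCommMonoid α] (i : Fin 4) (F : Wd → Wd → α) : spl i [] F = 0 := by
  simp [spl]

theorem TAU_cons {α : Type} [AddCommMonoid α] (i x : Fin 4) (w : Wd) (F : Wd → Wd → α) :
    spl i (x :: w) F = spl i w (fun a b => F (x :: a) b) + (if x = i then F [] w else 0) := by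
  unfold spl
  rw [List.length_cons, Finset.sum_range_succ']
  simp

theorem TAU_congr {α : Type} [AddCommMonoid α] (i : Fin 4) (w : Wd) (F G : Wd → Wd → α)
    (h : ∀ a b, a.length < w.length → b.length < w.length → F a b = G a b) :
    spl i w F = spl i w G := by
  unfold spl
  refine Finset.sum_congr rfl fun k hk => ?_
  have hk' := Finset.mem_range.1 hk
  have h1 : F (w.take k) (w.drop (k + 1)) = G (w.take k) (w.drop (k + 1)) := by
    apply h
    · rw [List.length_take]
      omega
    · rw [List.length_drop]
      omega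
  rw [h1]

theorem TAU_add {α : Type} [AddCommMonoid α] (i : Fin 4) (w : Wd) (F G : Wd → Wd → α) :
    spl i w (fun a b => F a b + G a b) = spl i w F + spl i w G := by
  unfold spl
  rw [← Finset.sum_add_distrib]
  refine Finset.sum_congr rfl fun k _ => ?_
  split_ifs
  · rfl
  · rw [add_zero]

theorem TAU_mulr (i : Fin 4) (w : Wd) (F : Wd → Wd → ℂ) (c : ℂ) :
    spl i w F * c = spl i w (fun a b => F a b * c) := by
  unfold spl
  rw [Finset.sum_mul]
  refine Finset.sum_congr rfl fun k _ => ?_
  split_ifs
  · rfl
  · rw [zero_mul]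

theorem TAU_mull (i : Fin 4) (w : Wd) (F : Wd → Wd → ℂ) (c : ℂ) :
    c * spl i w F = spl i w (fun a b => c * F a b) := by
  unfold spl
  rw [Finset.mul_sum]
  refine Finset.sum_congr rfl fun k _ => ?_
  split_ifs
  · rfl
  · rw [mul_zero]

/-- double factorisations -/
theorem TAU_swap {α : Type} [AddCommMonoid α] (i j : Fin 4) (w : Wd) : ∀ G : Wd → Wd → Wd → α,
    spl i w (fun A b => spl j A (fun a₁ b₁ => G a₁ b₁ b)) =
      spl j w (fun a B => spl i B (fun a' b' => G a a' b')) := by
  induction w with
  | nil => intro G; rw [TAU_nil, TAU_nil]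
  | cons x w ih =>
    intro G
    rw [TAU_cons, TAU_cons]
    simp only [TAU_nil, TAU_cons, ite_self, add_zero]
    rw [TAU_add, ih (fun a b c => G (x :: a) b c)]
    congr 1
    by_cases hx : x = j
    · simp only [hx, if_true]
    · simp only [hx, if_false]
      unfold spl
      simp

theorem TAU_main (n : ℕ) : ∀ w : Wd, w.length ≤ n → ∀ (i : Fin 4) (v : Wd),
    SW w e0 (i :: v) = spl i w (fun a b => ta a * SW b e0 v) := by
  induction n with
  | zero =>
    intro w hw i v
    have hw' : w = [] := List.length_eq_zero_iff.1 (by omega)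
    subst hw'
    rw [TAU_nil]
    simp [SW, e0]
  | succ n ih =>
    intro w hw i v
    cases w with
    | nil =>
      rw [TAU_nil]
      simp [SW, e0]
    | cons j w =>
      have hl : w.length ≤ n := by
        rw [List.length_cons] at hw
        omega
      have e1 : SW (j :: w) e0 (i :: v) = (if i = j then SW w e0 v else 0) + SW w e0 (j :: i :: v) := rfl
      have e2 : SW w e0 (j :: i :: v) =
          spl j w (fun a b => spl i b (fun a' b' => ta a * ta a' * SW b' e0 v)) := by
        rw [ih w hl j (i :: v)]
        refine TAU_congr j w _ _ fun a b _ hb => ?_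
        rw [ih b (by omega) i v, TAU_mull]
        refine TAU_congr i b _ _ fun a' b' _ _ => ?_
        ring
      have e3 : spl i w (fun a b => ta (j :: a) * SW b e0 v) =
          spl i w (fun A b => spl j A (fun a₁ b₁ => ta a₁ * ta b₁ * SW b e0 v)) := by
        refine TAU_congr i w _ _ fun a b ha _ => ?_
        have e4 : ta (j :: a) = SW a e0 [j] := rfl
        rw [e4, ih a (by omega) j [], TAU_mulr]
        rfl
      rw [e1, e2, TAU_cons, e3, TAU_swap i j w (fun a₁ b₁ b => ta a₁ * ta b₁ * SW b e0 v), add_comm]
      congr 1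
      by_cases hij : i = j
      · subst hij
        have h0 : ta [] = 1 := by simp [ta, SW, e0]
        simp [h0]
      · have hji : ¬ j = i := fun h => hij h.symm
        simp [hij, hji]

theorem TAU : TAU_stmt := by
  refine ⟨by simp [ta, SW, e0], fun i w => ?_⟩
  have e4 : ta (i :: w) = SW w e0 [i] := rfl
  rw [e4, TAU_main w.length w le_rfl i []]
  rfl

end Pool.Agent.QX
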