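import Pool.Agent.helper62.QX.SpecT

set_option autoImplicit false

/-!
# Row qt:MXO (MP_07c750_an): expected number of outliers, matrix coefficients
-/

open scoped Topology
open Filter Set Polynomial
open Pool.Agent.QU Pool.Agent.RP

namespace Pool.Agent.QX

theorem MXO_mul {D : ℕ} {G : Type} [Group G] {P Q : Mat D G} {r s : ℝ} (hP : RegB P r) (hQ : RegB Q s) :
    RegB (P * Q) (r * s) := by
  intro u
  have h1 := hP (fun k => ∑ j, Q k j * u j)
  have h2 := hQ u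
  calc ∑ i, l2 (∑ j, (P * Q) i j * u j) ^ 2 = ∑ i, l2 (∑ k, P i k * ∑ j, Q k j * u j) ^ 2 := by
        refine Finset.sum_congr rfl fun i _ => ?_
        rw [MAT_mulapp]
    _ ≤ r ^ 2 * ∑ i, l2 (∑ j, Q i j * u j) ^ 2 := h1
    _ ≤ r ^ 2 * (s ^ 2 * ∑ i, l2 (u i) ^ 2) := mul_le_mul_of_nonneg_left h2 (sq_nonneg r)
    _ = (r * s) ^ 2 * ∑ i, l2 (u i) ^ 2 := by ring

theorem MXO_one {D : ℕ} {G : Type} [Group G] : RegB (1 : Mat D G) 1 := by
  intro u
  have h : ∀ i, ∑ j, (1 : Mat D G) i j * u j = u i := by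
    intro i
    rw [Finset.sum_eq_single i]
    · rw [Matrix.one_apply_eq, one_mul]
    · intro j _ hj
      rw [Matrix.one_apply_ne hj.symm, zero_mul]
    · intro hi
      exact absurd (Finset.mem_univ i) hi
  simp only [h]
  rw [one_pow, one_mul]

theorem MXO_pow {D : ℕ} {G : Type} [Group G] {P : Mat D G} {r : ℝ} (hP : RegB P r) (n : ℕ) :
    RegB (P ^ n) (r ^ n) := by
  induction n with
  | zero => rw [pow_zero, pow_zero]; exact MXO_one
  | succ n ih => rw [pow_succ, pow_succ]; exact MXO_mul ih hP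

theorem MXO_entry {D : ℕ} {G : Type} [Group G] {Q : Mat D G} {s : ℝ} (hs : 0 ≤ s) (hQ : RegB Q s)
    (i j : Fin D) : regNorm (Q i j) ≤ s := by
  refine (A_RNB G (Q i j) 1).2.2.1 s hs fun u => ?_
  have h1 := hQ (Pi.single j u)
  have h2 : ∑ k, l2 ((Pi.single j u : Fin D → MonoidAlgebra ℂ G) k) ^ 2 = l2 u ^ 2 := by
    rw [Finset.sum_eq_single j]
    · rw [Pi.single_eq_same]
    · intro k _ hk
      rw [Pi.single_eq_of_ne hk, RNB_zero]
      norm_num
    · intro hj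
      exact absurd (Finset.mem_univ j) hj
  have h3 : ∀ k, ∑ l, Q k l * (Pi.single j u : Fin D → MonoidAlgebra ℂ G) l = Q k j * u := by
    intro k
    rw [Finset.sum_eq_single j]
    · rw [Pi.single_eq_same]
    · intro l _ hl
      rw [Pi.single_eq_of_ne hl, mul_zero]
    · intro hj
      exact absurd (Finset.mem_univ j) hj
  rw [h2] at h1
  simp only [h3] at h1
  have h4 : l2 (Q i j * u) ^ 2 ≤ ∑ k, l2 (Q k j * u) ^ 2 :=
    Finset.single_le_sum (f := fun k => l2 (Q k j * u) ^ 2) (fun k _ => sq_nonneg _)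
      (Finset.mem_univ i)
  have h5 : l2 (Q i j * u) ^ 2 ≤ (s * l2 u) ^ 2 := by
    rw [mul_pow]
    exact h4.trans h1
  exact (sq_le_sq₀ (MAT_l2nn _) (mul_nonneg hs (MAT_l2nn _))).1 h5

theorem MXO_av {D N : ℕ} (k : Fin D → Fin D → (Fin 2 → Equiv.Perm (Fin N)) → ℕ) :
    av (fun σ => ((∑ i, ∑ j, k i j σ : ℕ) : ℝ)) = ∑ i, ∑ j, av (fun σ => (k i j σ : ℝ)) := by
  unfold av
  push_cast
  rw [Finset.sum_comm, Finset.sum_div]
  refine Finset.sum_congr rfl fun i _ => ?_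
  rw [Finset.sum_comm, Finset.sum_div]

theorem MXO (h1 : GMA_stmt) (h2 : BLC_stmt) (h3 : SQC_stmt) (h4 : EXO_stmt) : MXO_stmt := by
  intro Φ hΦ D P r δ hD hP hr hδ
  have hD0 : (0 : ℝ) < D := by exact_mod_cast hD
  have hD1 : (1 : ℝ) ≤ D := by exact_mod_cast hD
  have ha0 : 0 < r + δ / 2 := by linarith
  have hb0 : 0 < r + δ := by linarith
  have hq : 1 < (r + δ) / (r + δ / 2) := by
    rw [one_lt_div ha0]
    linarith
  obtain ⟨p, hp⟩ := pow_unbounded_of_one_lt (D : ℝ) hq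
  have hp1 : 1 ≤ p := by
    by_contra hp0
    have : p = 0 := by omega
    rw [this, pow_zero] at hp
    linarith
  refine ⟨p, hp1, ?_⟩
  set t : ℝ := (r + δ / 2) ^ p with ht
  have ht0 : 0 < t := pow_pos ha0 p
  have htD : (D : ℝ) * t ≤ (r + δ) ^ p := by
    rw [div_pow, lt_div_iff₀ ht0] at hp
    exact hp.le
  have hrt : r ^ p < t := pow_lt_pow_left₀ (by linarith) hr (by omega)
  have hrp0 : 0 ≤ r ^ p := pow_nonneg hr p
  let e : Fin D → Fin D → MonoidAlgebra ℂ F2 := fun i j => (P ^ p) i j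
  have he : ∀ i j, regNorm (e i j) ≤ r ^ p := fun i j => MXO_entry hrp0 (MXO_pow hP p) i j
  have hsa : ∀ i j, adj (adj (e i j) * e i j) = adj (e i j) * e i j := by
    intro i j
    rw [(A_ADJ F2 (adj (e i j)) (e i j)).2.2.1, (A_ADJ F2 (e i j) (e i j)).2.1]
  have hnn : ∀ i j, 0 ≤ regNorm (e i j) := fun i j => (A_RNB F2 (e i j) (e i j)).1
  have hreg : ∀ i j, regNorm (adj (e i j) * e i j) < t ^ 2 := by
    intro i j
    have h5 : regNorm (adj (e i j) * e i j) ≤ regNorm (adj (e i j)) * regNorm (e i j) :=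
      (A_RNB F2 (adj (e i j)) (e i j)).2.2.2.2.2.2.1
    rw [(A_ADJ F2 (e i j) (e i j)).2.2.2.1] at h5
    have h6 : regNorm (e i j) * regNorm (e i j) ≤ r ^ p * r ^ p :=
      mul_le_mul (he i j) (he i j) (hnn i j) hrp0
    have h7 : r ^ p * r ^ p < t * t := mul_lt_mul'' hrt hrt hrp0 hrp0
    calc regNorm (adj (e i j) * e i j) ≤ r ^ p * r ^ p := h5.trans h6
      _ < t * t := h7
      _ = t ^ 2 := (sq t).symm
  intro ε hε
  have hε' : 0 < ε / (D : ℝ) ^ 2 := by positivity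
  have hev : ∀ᶠ N : ℕ in atTop, ∀ i j : Fin D, ∃ k : (Fin 2 → Equiv.Perm (Fin N)) → ℕ,
      (∀ σ, Cod (R1 (rs (Φ N) σ) (adj (e i j) * e i j)) (t ^ 2) (k σ)) ∧
        av (fun σ => (k σ : ℝ)) ≤ ε / (D : ℝ) ^ 2 := by
    rw [Filter.eventually_all]
    intro i
    rw [Filter.eventually_all]
    intro j
    exact h4 Φ hΦ (adj (e i j) * e i j) (t ^ 2) (ε / (D : ℝ) ^ 2) (hsa i j) (hreg i j) hε'
  filter_upwards [hev] with N hN
  choose k hk1 hk2 using hN
  refine ⟨fun σ => ∑ i, ∑ j, k i j σ, fun σ => ?_, ?_⟩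
  · obtain ⟨g1, g2, _, _, _, _, _, g8, _⟩ := h1 D (N - 1) (rs (Φ N) σ)
    have hB : ∀ i j, Cod (R1 (rs (Φ N) σ) (e i j)) t (k i j σ) := by
      intro i j
      refine (h3 (Fin (N - 1)) (R1 (rs (Φ N) σ) (e i j)) t t (k i j σ) (k i j σ) ht0.le).1 ?_
      have h8 := hk1 i j σ
      rw [(g1 _ _).1, g2] at h8
      exact h8
    have hC : Cod (GM (rs (Φ N) σ) (P ^ p)) (D * t) (∑ i, ∑ j, k i j σ) :=
      h2 D (N - 1) (GM (rs (Φ N) σ) (P ^ p)) (fun i j => R1 (rs (Φ N) σ) (e i j)) t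
        (fun i j => k i j σ) ht0.le (fun x y => rfl) hB
    rw [g8] at hC
    exact (h3 _ (GM (rs (Φ N) σ) P ^ p) (D * t) ((r + δ) ^ p) (∑ i, ∑ j, k i j σ)
      (∑ i, ∑ j, k i j σ) (by positivity)).2 hC htD le_rfl
  · rw [MXO_av]
    calc ∑ i, ∑ j, av (fun σ => (k i j σ : ℝ)) ≤ ∑ _i : Fin D, ∑ _j : Fin D, ε / (D : ℝ) ^ 2 :=
          Finset.sum_le_sum fun i _ => Finset.sum_le_sum fun j _ => hk2 i j
      _ = ε := by
          simp only [Finset.sum_const, Finset.card_univ, Fintype.card_fin, nsmul_eq_mul]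
          field_simp

end Pool.Agent.QX
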